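import Pool.Agent.Helper15.AB.GoalsG
import Pool.Agent.Helper27.PCap.Circ

/-! # Packet AB SMV: nonnegative Laplacian implies the sub-mean value inequality -/

set_option autoImplicit false

open MeasureTheory Set Filter Topology Complex
open scoped ContDiff Real

noncomputable section

namespace Pool.Agent.Helper5.AB

open Pool.Agent.Helper15.AB Pool.Agent.Helper24.AB
open Pool.Agent.Helper25.PCap (D1 D2 cmean)

/-- the identification of the plane with the complex numbers -/
def eC : (ℝ × ℝ) ≃L[ℝ] ℂ := Complex.equivRealProdCLM.symm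

theorem eC_apply (y : ℝ × ℝ) : eC y = y.1 + y.2 * I := Complex.equivRealProdCLM_symm_apply y

theorem D1_comp (g : ℂ → ℝ) : D1 (fun y => g (eC y)) = fun y => dS g (eC y) := by
  funext y
  unfold D1 dS
  rw [show (fun y => g (eC y)) = g ∘ eC from rfl, ContinuousLinearEquiv.comp_right_fderiv]
  simp [eC_apply]

theorem D2_comp (g : ℂ → ℝ) : D2 (fun y => g (eC y)) = fun y => dT g (eC y) := by
  funext y
  unfold D2 dT
  rw [show (fun y => g (eC y)) = g ∘ eC from rfl, ContinuousLinearEquiv.comp_right_fderiv]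
  simp [eC_apply]

theorem smv : S_SMV := by
  intro f O c r hO hf hl hr hb
  rcases hr.eq_or_lt with rfl | hr0
  · simp
  set ψ : ℝ × ℝ → ℝ := fun y => f (eC y) with hψ
  have hlap : ∀ y, D1 (D1 ψ) y + D2 (D2 ψ) y = lapC f (eC y) := by
    intro y
    rw [hψ, D1_comp, D1_comp, D2_comp, D2_comp]
    rfl
  have hOo : IsOpen (eC ⁻¹' O) := hO.preimage eC.continuous
  have hψs : ContDiffOn ℝ 2 ψ (eC ⁻¹' O) :=
    hf.comp eC.contDiff.contDiffOn (fun p hp => hp)
  have hce : eC (c.re, c.im) = c := by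
    rw [eC_apply]
    simp
  have hsub : {y : ℝ × ℝ | (y.1 - (c.re, c.im).1) ^ 2 + (y.2 - (c.re, c.im).2) ^ 2 ≤ r ^ 2} ⊆
      eC ⁻¹' O := by
    intro y hy
    simp only [mem_ofPred_eq] at hy
    apply hb
    rw [mem_closedBall_iff_norm]
    have h2 : ‖eC y - c‖ ^ 2 = (y.1 - c.re) ^ 2 + (y.2 - c.im) ^ 2 := by
      rw [← Complex.normSq_eq_norm_sq, Complex.normSq_apply, eC_apply]
      simp
      ring
    have h3 : ‖eC y - c‖ ^ 2 ≤ r ^ 2 := by rw [h2]; exact hy
    exact (abs_le_of_sq_le_sq' h3 hr).2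
  obtain ⟨h1, h2, h3, h4⟩ := Pool.Agent.Helper27.PCap.pkCirc ψ (c.re, c.im) r _ hr0 hOo hsub hψs
  have hnn : ∀ s ∈ Ioo 0 r, 0 ≤ cmean (fun y => D1 (D1 ψ) y + D2 (D2 ψ) y) (c.re, c.im) s := by
    intro s hs
    unfold cmean
    apply mul_nonneg (by positivity)
    apply intervalIntegral.integral_nonneg (by positivity)
    intro φ _
    have hmem := Pool.Agent.Helper27.PCap.gam_mem hsub (r := s) ⟨hs.1.le, hs.2.le⟩ φ
    unfold Pool.Agent.Helper27.PCap.gam at hmem
    simp only [hlap _]
    exact hl _ hmem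
  have hmono : MonotoneOn (cmean ψ (c.re, c.im)) (Icc 0 r) := by
    apply monotoneOn_of_deriv_nonneg (convex_Icc _ _) h1
    · rw [interior_Icc]
      exact fun r hr => (h4 r hr).differentiableAt.differentiableWithinAt
    · rw [interior_Icc]
      intro r hr
      rw [(h4 r hr).deriv]
      apply mul_nonneg (by have := hr.1; positivity)
      apply intervalIntegral.integral_nonneg hr.1.le
      intro s hs
      rcases hs.1.eq_or_lt with h | h
      · rw [← h, zero_mul]
      · exact mul_nonneg hs.1 (hnn s ⟨h, hs.2.trans_lt hr.2⟩)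
  have h5 := hmono (a := 0) (b := r) ⟨le_rfl, hr⟩ ⟨hr, le_rfl⟩ hr
  rw [h2] at h5
  have h6 : ψ (c.re, c.im) = f c := by
    rw [hψ]
    simp only [hce]
  rw [h6] at h5
  refine h5.trans_eq ?_
  unfold cmean
  rw [Real.circleAverage_def, smul_eq_mul, one_div]
  congr 1
  apply intervalIntegral.integral_congr
  intro θ _
  simp only [hψ, eC_apply]
  congr 1
  rw [circleMap, Complex.exp_mul_I]
  apply Complex.ext <;> simp

end Pool.Agent.Helper5.AB
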