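import Pool.Agent.Helper27.AB.PH3.Goals

/-!
# Packet POLB of project AB (module PH3): basic families
-/

set_option autoImplicit false

open MeasureTheory Set Filter Topology
open scoped ContDiff

noncomputable section

namespace Pool.Agent.Helper5.AB

open Pool.Agent.Helper24.AB Pool.Agent.Helper15.AB Pool.Agent.Helper27.AB

theorem dT_im {g : ℝ → ℝ} (hg : Differentiable ℝ g) :
    dT (fun z : ℂ => g z.im) = fun z => deriv g z.im := by
  funext z
  have h := (hg z.im).hasDerivAt.comp_hasFDerivAt z (Complex.imCLM.hasFDerivAt (x := z))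
  have h2 : HasFDerivAt (fun z : ℂ => g z.im) (deriv g z.im • Complex.imCLM) z := h
  rw [dT, h2.fderiv]
  simp

theorem dS_im {g : ℝ → ℝ} (hg : Differentiable ℝ g) :
    dS (fun z : ℂ => g z.im) = fun _ => 0 := by
  funext z
  have h := (hg z.im).hasDerivAt.comp_hasFDerivAt z (Complex.imCLM.hasFDerivAt (x := z))
  have h2 : HasFDerivAt (fun z : ℂ => g z.im) (deriv g z.im • Complex.imCLM) z := h
  rw [dS, h2.fderiv]
  simp

theorem dS_re {g : ℝ → ℝ} (hg : Differentiable ℝ g) :
    dS (fun z : ℂ => g z.re) = fun z => deriv g z.re := by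
  funext z
  have h := (hg z.re).hasDerivAt.comp_hasFDerivAt z (Complex.reCLM.hasFDerivAt (x := z))
  have h2 : HasFDerivAt (fun z : ℂ => g z.re) (deriv g z.re • Complex.reCLM) z := h
  rw [dS, h2.fderiv]
  simp

theorem dT_re {g : ℝ → ℝ} (hg : Differentiable ℝ g) :
    dT (fun z : ℂ => g z.re) = fun _ => 0 := by
  funext z
  have h := (hg z.re).hasDerivAt.comp_hasFDerivAt z (Complex.reCLM.hasFDerivAt (x := z))
  have h2 : HasFDerivAt (fun z : ℂ => g z.re) (deriv g z.re • Complex.reCLM) z := h
  rw [dT, h2.fderiv]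
  simp

theorem WP_u (q : Par) (t : ℝ) : |uf q.1.1 t| ≤ WP q t := by
  rw [WP, Wf]
  have := abs_nonneg (uf q.1.1 t)
  have := abs_nonneg (vf q.1.2.1 t)
  have := abs_nonneg q.1.2.2
  linarith

theorem WP_v (q : Par) (t : ℝ) : |vf q.1.2.1 t| ≤ WP q t := by
  rw [WP, Wf]
  have := abs_nonneg (uf q.1.1 t)
  have := abs_nonneg (vf q.1.2.1 t)
  have := abs_nonneg q.1.2.2
  linarith

theorem WP_l (q : Par) (t : ℝ) : |q.1.2.2| ≤ WP q t := by
  rw [WP, Wf]
  have := abs_nonneg (uf q.1.1 t)
  have := abs_nonneg (vf q.1.2.1 t)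
  have := abs_nonneg q.1.2.2
  linarith

/-- class of order `0` -/
theorem pb_zero {a : ℝ} {c : Par → ℂ → ℝ} (h1 : ∀ q, ContDiff ℝ ∞ (c q))
    (h2 : ∃ (C : ℝ) (N : ℕ), ∀ q, ∀ z ∈ strip a, |c q z| ≤ C * WP q z.im ^ N) : PB a 0 c := by
  refine ⟨fun q => (h1 q).contDiffOn, fun w hw => ?_⟩
  have : w = [] := List.length_eq_zero_iff.1 (by omega)
  subst this
  exact h2

theorem pb_const (hA : S_POLA) (a : ℝ) (m : ℕ) : ∀ r : ℝ, PB a m (fun _ _ => r) := by
  have h0 : ∀ r : ℝ, PB a 0 (fun _ _ => r) := fun r =>
    pb_zero (fun _ => contDiff_const) ⟨|r|, 0, fun q z _ => by simp⟩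
  induction m with
  | zero => exact h0
  | succ m ih =>
    intro r
    obtain ⟨-, -, -, -, -, h6, -⟩ := hA a
    have e1 : (fun (_ : Par) => dS (fun _ : ℂ => r)) = fun _ _ => (0 : ℝ) := by
      funext q z
      simp [dS]
    have e2 : (fun (_ : Par) => dT (fun _ : ℂ => r)) = fun _ _ => (0 : ℝ) := by
      funext q z
      simp [dT]
    refine h6 m _ (h0 r) ?_ ?_
    · rw [e1]; exact ih 0
    · rw [e2]; exact ih 0

/-- Packet POLB. -/
theorem polb (hA : S_POLA) : S_POLB := by
  intro a ha m
  have hc := pb_const hA a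
  obtain ⟨-, -, h3, -, -, h6, -⟩ := hA a
  have du : ∀ α : ℝ, ContDiff ℝ ∞ (uf α) := fun α => by
    unfold uf
    fun_prop
  have dv : ∀ α : ℝ, ContDiff ℝ ∞ (vf α) := fun α => by
    unfold vf
    fun_prop
  have eu : ∀ α : ℝ, deriv (uf α) = fun t => kap * uf α t := fun α => by
    funext t
    have h : HasDerivAt (fun t => α * Real.exp (kap * t)) (α * (Real.exp (kap * t) * (kap * 1))) t :=
      (((hasDerivAt_id t).const_mul kap).exp).const_mul α
    rw [show uf α = fun t => α * Real.exp (kap * t) from rfl, h.deriv]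
    ring
  have ev : ∀ α : ℝ, deriv (vf α) = fun t => (-kap) * vf α t := fun α => by
    funext t
    have h : HasDerivAt (fun t => α * Real.exp (-(kap * t)))
        (α * (Real.exp (-(kap * t)) * (-(kap * 1)))) t :=
      ((((hasDerivAt_id t).const_mul kap).neg).exp).const_mul α
    rw [show vf α = fun t => α * Real.exp (-(kap * t)) from rfl, h.deriv]
    ring
  refine ⟨hc m, ?_, ?_, ?_, ?_⟩
  · induction m with
    | zero =>
      exact pb_zero (fun q => (du _).comp Complex.imCLM.contDiff)
        ⟨1, 1, fun q z _ => by rw [one_mul, pow_one]; exact WP_u q _⟩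
    | succ m ih =>
      refine h6 m _ (pb_zero (fun q => (du _).comp Complex.imCLM.contDiff)
        ⟨1, 1, fun q z _ => by rw [one_mul, pow_one]; exact WP_u q _⟩) ?_ ?_
      · have e : (fun q : Par => dS (fun z : ℂ => uf q.1.1 z.im)) = fun _ _ => (0 : ℝ) := by
          funext q
          exact dS_im ((du _).differentiable (by simp))
        rw [e]
        exact hc m 0
      · have e : (fun q : Par => dT (fun z : ℂ => uf q.1.1 z.im)) =
            fun q z => kap * uf q.1.1 z.im := by
          funext q
          rw [dT_im ((du _).differentiable (by simp)), eu]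
        rw [e]
        exact h3 m _ kap ih
  · induction m with
    | zero =>
      exact pb_zero (fun q => (dv _).comp Complex.imCLM.contDiff)
        ⟨1, 1, fun q z _ => by rw [one_mul, pow_one]; exact WP_v q _⟩
    | succ m ih =>
      refine h6 m _ (pb_zero (fun q => (dv _).comp Complex.imCLM.contDiff)
        ⟨1, 1, fun q z _ => by rw [one_mul, pow_one]; exact WP_v q _⟩) ?_ ?_
      · have e : (fun q : Par => dS (fun z : ℂ => vf q.1.2.1 z.im)) = fun _ _ => (0 : ℝ) := by
          funext q
          exact dS_im ((dv _).differentiable (by simp))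
        rw [e]
        exact hc m 0
      · have e : (fun q : Par => dT (fun z : ℂ => vf q.1.2.1 z.im)) =
            fun q z => (-kap) * vf q.1.2.1 z.im := by
          funext q
          rw [dT_im ((dv _).differentiable (by simp)), ev]
        rw [e]
        exact h3 m _ (-kap) ih
  · have h0 : PB a 0 (fun (q : Par) (_ : ℂ) => q.1.2.2) :=
      pb_zero (fun q => contDiff_const)
        ⟨1, 1, fun q z _ => by rw [one_mul, pow_one]; exact WP_l q _⟩
    cases m with
    | zero => exact h0
    | succ m =>
      refine h6 m _ h0 ?_ ?_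
      · have e : (fun q : Par => dS (fun _ : ℂ => q.1.2.2)) = fun _ _ => (0 : ℝ) := by
          funext q z
          simp [dS]
        rw [e]
        exact hc m 0
      · have e : (fun q : Par => dT (fun _ : ℂ => q.1.2.2)) = fun _ _ => (0 : ℝ) := by
          funext q z
          simp [dT]
        rw [e]
        exact hc m 0
  · have h0 : ∀ h : ℝ → ℝ, ContDiff ℝ ∞ h → PB a 0 (fun _ z => h z.re) := by
      intro h hh
      obtain ⟨C, hC⟩ := isCompact_Icc.exists_bound_of_continuousOn
        (s := Icc (-a) a) hh.continuous.continuousOn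
      refine pb_zero (fun q => hh.comp Complex.reCLM.contDiff) ⟨C, 0, fun q z hz => ?_⟩
      rw [pow_zero, mul_one]
      have hz' : |z.re| < a := hz
      rw [abs_lt] at hz'
      exact hC z.re ⟨hz'.1.le, hz'.2.le⟩
    induction m with
    | zero => exact h0
    | succ m ih =>
      intro h hh
      refine h6 m _ (h0 h hh) ?_ ?_
      · have e : (fun _ : Par => dS (fun z : ℂ => h z.re)) = fun _ z => deriv h z.re := by
          funext q
          exact dS_re (hh.differentiable (by simp))
        rw [e]
        exact ih _ ((contDiff_infty_iff_deriv.1 hh).2)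
      · have e : (fun _ : Par => dT (fun z : ℂ => h z.re)) = fun _ _ => (0 : ℝ) := by
          funext q
          exact dT_re (hh.differentiable (by simp))
        rw [e]
        exact hc m 0

end Pool.Agent.Helper5.AB
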