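import Pool.Agent.Helper95.AB.GoalsW

/-! # Packet AB ELL: the truncated logarithm -/

set_option autoImplicit false

open MeasureTheory Set Filter Topology
open scoped ContDiff Real

noncomputable section

namespace Pool.Agent.Helper5.AB

open Pool.Agent.Helper95.AB

/-- the truncated logarithm -/
def ellF (x : ℝ) : ℝ := Real.smoothTransition (x - 1) * Real.log x

theorem ellF_of_le {x : ℝ} (hx : x ≤ 1) : ellF x = 0 := by
  unfold ellF
  rw [Real.smoothTransition.zero_of_nonpos (by linarith), zero_mul]

theorem ellF_of_ge {x : ℝ} (hx : 2 ≤ x) : ellF x = Real.log x := by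
  unfold ellF
  rw [Real.smoothTransition.one_of_one_le (by linarith), one_mul]

theorem ellF_nonneg (x : ℝ) : 0 ≤ ellF x := by
  rcases le_or_gt x 1 with h | h
  · exact (ellF_of_le h).ge
  · exact mul_nonneg (Real.smoothTransition.nonneg _) (Real.log_nonneg h.le)

theorem ellF_contDiff : ContDiff ℝ ∞ ellF := by
  rw [contDiff_iff_contDiffAt]
  intro x
  rcases lt_or_ge x 1 with h | h
  · have h1 : ellF =ᶠ[𝓝 x] fun _ => 0 := by
      filter_upwards [Iio_mem_nhds h] with y hy
      exact ellF_of_le (le_of_lt hy)
    exact contDiffAt_const.congr_of_eventuallyEq h1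
  · have hx : x ≠ 0 := by linarith
    exact ((Real.smoothTransition.contDiff.comp (contDiff_id.sub contDiff_const)).contDiffAt).mul
      (Real.contDiffAt_log.2 hx)

theorem ellF_deriv_of_le {x : ℝ} (hx : x ≤ 1) : deriv ellF x = 0 := by
  apply IsLocalMin.deriv_eq_zero
  refine Eventually.of_forall fun y => ?_
  rw [ellF_of_le hx]
  exact ellF_nonneg y

theorem ellF_deriv_of_gt {x : ℝ} (hx : 2 < x) : deriv ellF x = x⁻¹ := by
  have h1 : ellF =ᶠ[𝓝 x] Real.log := by
    filter_upwards [Ioi_mem_nhds hx] with y hy
    exact ellF_of_ge (le_of_lt hy)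
  rw [h1.deriv_eq, Real.deriv_log]

theorem ell : S_ELL := by
  have hc : Continuous fun x => x * deriv ellF x :=
    continuous_id.mul (ellF_contDiff.continuous_deriv (by simp))
  obtain ⟨C, hC⟩ := (isCompact_Icc (a := (1 : ℝ)) (b := 2)).exists_bound_of_continuousOn
    hc.continuousOn
  refine ⟨ellF, max 1 C, le_max_left _ _, ellF_contDiff, ellF_nonneg,
    fun x hx => ⟨ellF_of_le hx, ellF_deriv_of_le hx⟩, fun x hx => ?_, fun x hx => ?_,
    fun x => ?_⟩
  · rcases le_or_gt 2 x with h | h
    · rw [ellF_of_ge h]
      linarith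
    · have h1 : Real.log x ≤ 1 := by
        have := Real.log_le_sub_one_of_pos (x := x) (by linarith)
        linarith
      have := ellF_nonneg x
      linarith
  · exact mul_le_of_le_one_left (Real.log_nonneg hx) (Real.smoothTransition.le_one _)
  · rcases le_or_gt x 1 with h | h
    · rw [ellF_deriv_of_le h, mul_zero, abs_zero]
      positivity
    · rcases le_or_gt x 2 with h2 | h2
      · have := hC x ⟨h.le, h2⟩
        rw [Real.norm_eq_abs] at this
        exact this.trans (le_max_right _ _)
      · rw [ellF_deriv_of_gt h2, mul_inv_cancel₀ (by linarith), abs_one]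
        exact le_max_left _ _

end Pool.Agent.Helper5.AB
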